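import Pool.Agent.J4H67.GC.Ord

set_option autoImplicit false

/-! Heights of polynomials. -/

open MvPolynomial Height

namespace Pool.Agent.J4H67.GC

open Pool.Agent.J4H27.GC

section gen

variable {K : Type} [Field K] [NumberField K] {ι ι' : Type} [Finite ι] [Finite ι']

theorem lh_cover (x : ι → K) (y : ι' → K) (h : ∀ i, x i ≠ 0 → ∃ j, y j = x i) : logHeight x ≤ logHeight y := by
  rw [logHeight_eq_logHeight_restrict_support x]
  choose f hf using fun i : Function.support x => h i.1 i.2
  have e : (fun i : Function.support x => x i.1) = y ∘ f := by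
    funext i
    exact (hf i).symm
  rw [e]
  exact logHeight_comp_le f y

theorem lh_nat (y : ι → ℕ) (n : ℕ) (hn : 1 ≤ n) (h : ∀ i, y i ≤ n) :
    logHeight (fun i => (y i : K)) ≤ totalWeight K * Real.log n := by
  have hn0 : (1 : ℝ) ≤ n := by exact_mod_cast hn
  by_cases h0 : (fun i => (y i : K)) = 0
  · rw [h0, logHeight_zero]
    exact mul_nonneg (by positivity) (Real.log_nonneg hn0)
  · have hne : Nonempty ι := by
      obtain ⟨i, _⟩ := Function.ne_iff.1 h0
      exact ⟨i⟩
    rw [logHeight_eq_log_mulHeight, mulHeight_eq h0]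
    have h1 : (Multiset.map (fun v : AbsoluteValue K ℝ => ⨆ i, v ((fun i => (y i : K)) i))
        (AdmissibleAbsValues.archAbsVal (K := K))).prod ≤ (n : ℝ) ^ totalWeight K := by
      refine (Multiset.prod_map_le_prod_map₀ _ (fun _ => (n : ℝ))
        (fun v _ => Real.iSup_nonneg_of_nonnegHomClass v _) (fun v _ => ?_)).trans ?_
      · apply ciSup_le
        intro i
        have h2 : v (y i : K) ≤ y i := by
          have : ∀ m : ℕ, v (m : K) ≤ m := by
            intro m
            induction m with
            | zero => simp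
            | succ m ih =>
              push_cast
              refine (v.add_le _ _).trans ?_
              rw [v.map_one]; linarith
          exact this _
        refine h2.trans ?_
        exact_mod_cast h i
      · rw [Multiset.map_const', Multiset.prod_replicate]
        rfl
    have h2 : ∏ᶠ v : AdmissibleAbsValues.nonarchAbsVal (K := K), ⨆ i, v.val ((fun i => (y i : K)) i) ≤ 1 := by
      apply (finprod_induction (fun r : ℝ => 0 ≤ r ∧ r ≤ 1) ⟨zero_le_one, le_rfl⟩
        (fun a b ha hb => ⟨mul_nonneg ha.1 hb.1, mul_le_one₀ ha.2 hb.1 hb.2⟩) (fun v => ⟨?_, ?_⟩)).2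
      · exact Real.iSup_nonneg_of_nonnegHomClass v.val _
      · apply ciSup_le
        intro i
        exact (AdmissibleAbsValues.isNonarchimedean v.val v.2).apply_natCast_le_one
    have h3 : 0 ≤ ∏ᶠ v : AdmissibleAbsValues.nonarchAbsVal (K := K), ⨆ i, v.val ((fun i => (y i : K)) i) :=
      finprod_nonneg fun v => Real.iSup_nonneg_of_nonnegHomClass v.val _
    have h4 : (Multiset.map (fun v : AbsoluteValue K ℝ => ⨆ i, v ((fun i => (y i : K)) i))
        (AdmissibleAbsValues.archAbsVal (K := K))).prod *
        ∏ᶠ v : AdmissibleAbsValues.nonarchAbsVal (K := K), ⨆ i, v.val ((fun i => (y i : K)) i) ≤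
        (n : ℝ) ^ totalWeight K := by
      calc _ ≤ (n : ℝ) ^ totalWeight K * 1 := mul_le_mul h1 h2 h3 (by positivity)
        _ = _ := mul_one _
    have h5 := mulHeight_pos (fun i => (y i : K))
    rw [mulHeight_eq h0] at h5
    refine (Real.log_le_log h5 h4).trans (le_of_eq ?_)
    rw [Real.log_pow]

end gen

section pol

variable {σ τ K : Type} [Field K] [NumberField K]

theorem hp_nonneg (P : MvPolynomial σ K) : 0 ≤ hp P := logHeight_nonneg _

theorem hp_C_mul_le (c : K) (P : MvPolynomial σ K) : hp (C c * P) ≤ hp P := by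
  by_cases hc : c = 0
  · rw [hc, map_zero, zero_mul]
    refine le_trans (le_of_eq ?_) (hp_nonneg P)
    unfold hp
    have : (fun s : (0 : MvPolynomial σ K).support => (0 : MvPolynomial σ K).coeff s) = 0 := by
      funext s; simp
    rw [this, logHeight_zero]
  · unfold hp
    have e : (fun s : (C c * P).support => (C c * P).coeff s) =
        c • (fun s : (C c * P).support => P.coeff (s : σ →₀ ℕ)) := by
      funext s
      simp [coeff_C_mul]
    rw [e, logHeight_smul_eq_logHeight _ hc]
    apply lh_cover
    intro s hs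
    exact ⟨⟨s.1, mem_support_iff.2 hs⟩, rfl⟩

theorem hp_C_mul {c : K} (hc : c ≠ 0) (P : MvPolynomial σ K) : hp (C c * P) = hp P := by
  apply le_antisymm (hp_C_mul_le c P)
  have h := hp_C_mul_le c⁻¹ (C c * P)
  rw [← mul_assoc, ← C_mul, inv_mul_cancel₀ hc, C_1, one_mul] at h
  exact h

theorem hp_rename {f : σ → τ} (hf : Function.Injective f) (P : MvPolynomial σ K) : hp (rename f P) = hp P := by
  classical
  apply le_antisymm
  · unfold hp
    apply lh_cover
    rintro ⟨s, hs⟩ _
    rw [support_rename_of_injective hf, Finset.mem_image] at hs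
    obtain ⟨s', hs', rfl⟩ := hs
    exact ⟨⟨s', hs'⟩, by simp [coeff_rename_mapDomain f hf]⟩
  · unfold hp
    apply lh_cover
    rintro ⟨s, hs⟩ _
    refine ⟨⟨Finsupp.mapDomain f s, ?_⟩, by simp [coeff_rename_mapDomain f hf]⟩
    rw [support_rename_of_injective hf]
    exact Finset.mem_image_of_mem _ hs

theorem le_hp_X_sub (l : σ) (a : K) : logHeight₁ a ≤ hp (X l - C a) := by
  classical
  rw [← logHeight₁_neg, logHeight₁_eq_logHeight]
  unfold hp
  apply lh_cover
  have hs : Finsupp.single l 1 ≠ (0 : σ →₀ ℕ) := by simp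
  intro i hi
  fin_cases i
  · refine ⟨⟨0, ?_⟩, ?_⟩
    · rw [mem_support_iff]
      simpa [coeff_X', coeff_C, hs] using hi
    · simp [coeff_X', coeff_C, hs]
  · refine ⟨⟨Finsupp.single l 1, ?_⟩, ?_⟩
    · rw [mem_support_iff]
      simp [coeff_X', coeff_C, hs.symm]
    · simp [coeff_X', coeff_C, hs.symm]

theorem hp_pderiv_le (k : σ) (P : MvPolynomial σ K) :
    hp (pderiv k P) ≤ hp P + totalWeight K * P.degreeOf k := by
  classical
  by_cases h0 : P.degreeOf k = 0
  · have h1 : pderiv k P = 0 := by
      apply pderiv_eq_zero_of_notMem_vars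
      intro hv
      rw [mem_vars] at hv
      obtain ⟨d, hd, hk⟩ := hv
      have := monomial_le_degreeOf k hd
      rw [Finsupp.mem_support_iff] at hk
      omega
    rw [h1, h0]
    have : hp (0 : MvPolynomial σ K) = 0 := by
      unfold hp
      have e : (fun s : (0 : MvPolynomial σ K).support => (0 : MvPolynomial σ K).coeff s) = 0 := by
        funext s; simp
      rw [e, logHeight_zero]
    rw [this]
    have := hp_nonneg P
    simpa using this
  · have hd : 1 ≤ P.degreeOf k := Nat.one_le_iff_ne_zero.2 h0
    have e : (fun s : (pderiv k P).support => (pderiv k P).coeff s) =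
        (fun s : (pderiv k P).support => P.coeff ((s : σ →₀ ℕ) + Finsupp.single k 1)) *
          (fun s : (pderiv k P).support => (((s : σ →₀ ℕ) k + 1 : ℕ) : K)) := by
      funext s
      simp [coeff_pderiv]
    unfold hp
    rw [e]
    refine (logHeight_mul_le _ _).trans (add_le_add ?_ ?_)
    · apply lh_cover
      intro s hs
      exact ⟨⟨_, mem_support_iff.2 hs⟩, rfl⟩
    · refine (lh_nat (fun s : (pderiv k P).support => (s : σ →₀ ℕ) k + 1) (P.degreeOf k) hd ?_).trans ?_
      · rintro ⟨s, hs⟩
        rw [mem_support_iff, coeff_pderiv] at hs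
        have h1 : s + Finsupp.single k 1 ∈ P.support := mem_support_iff.2 (left_ne_zero_of_mul hs)
        have h2 := monomial_le_degreeOf k h1
        rw [Finsupp.add_apply, Finsupp.single_eq_same] at h2
        exact h2
      · apply mul_le_mul_of_nonneg_left _ (by positivity)
        have h1 : (0 : ℝ) < P.degreeOf k := by exact_mod_cast hd
        have := Real.log_le_sub_one_of_pos h1
        linarith

end pol

end Pool.Agent.J4H67.GC
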