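import Pool.Agent.J4H27.GC.Defs3

/-!
# Change of the rows in a coefficient of lowest weight
-/

set_option autoImplicit false

open Height Filter NumberField

namespace Pool.Agent.J4H67.GC

open Pool.Agent.J4H27.GC

section ev

variable {K : Type} [Field K] [NumberField K] {S : Type} [CommRing S]

omit [NumberField K] in
/-- the identity for the `y`-coordinate of `2 ^ k P`, at a point of a ring -/
theorem om_ev (a b : 𝓞 K) (g : 𝓞 K →+* S) (x : S) (k : ℕ) :
    (om a b k).eval₂ g x ^ 2 * (x ^ 3 + g a * x + g b) =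
      (psi a b k).eval₂ g x * ((phi a b k).eval₂ g x ^ 3 + g a * (phi a b k).eval₂ g x *
        (psi a b k).eval₂ g x ^ 2 + g b * (psi a b k).eval₂ g x ^ 3) := by
  induction k with
  | zero =>
    have h1 : phi a b 0 = Polynomial.X := rfl
    have h2 : psi a b 0 = 1 := rfl
    have h3 : om a b 0 = 1 := rfl
    rw [h1, h2, h3]
    simp only [Polynomial.eval₂_X, Polynomial.eval₂_one]
    ring
  | succ k ih =>
    have h1 : phi a b (k + 1) = phi a b k ^ 4 - 2 * Polynomial.C a * phi a b k ^ 2 * psi a b k ^ 2 -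
      8 * Polynomial.C b * phi a b k * psi a b k ^ 3 + Polynomial.C a ^ 2 * psi a b k ^ 4 := rfl
    have h2 : psi a b (k + 1) = 4 * psi a b k * (phi a b k ^ 3 +
      Polynomial.C a * phi a b k * psi a b k ^ 2 + Polynomial.C b * psi a b k ^ 3) := rfl
    have h3 : om a b (k + 1) = 2 * om a b k * (phi a b k ^ 6 + 5 * Polynomial.C a *
      phi a b k ^ 4 * psi a b k ^ 2 + 20 * Polynomial.C b * phi a b k ^ 3 * psi a b k ^ 3 -
      5 * Polynomial.C a ^ 2 * phi a b k ^ 2 * psi a b k ^ 4 -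
      4 * Polynomial.C a * Polynomial.C b * phi a b k * psi a b k ^ 5 -
      (8 * Polynomial.C b ^ 2 + Polynomial.C a ^ 3) * psi a b k ^ 6) := rfl
    have e : ∀ f : Polynomial (𝓞 K), f.eval₂ g x = Polynomial.eval₂RingHom g x f := fun _ => rfl
    have eC : ∀ c : 𝓞 K, Polynomial.eval₂RingHom g x (Polynomial.C c) = g c := fun c =>
      Polynomial.eval₂_C _ _
    rw [h1, h2, h3]
    simp only [e] at ih ⊢
    simp only [map_add, map_sub, map_mul, map_pow, map_ofNat, eC]
    generalize Polynomial.eval₂RingHom g x (om a b k) = o at ih ⊢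
    generalize Polynomial.eval₂RingHom g x (phi a b k) = p at ih ⊢
    generalize Polynomial.eval₂RingHom g x (psi a b k) = q at ih ⊢
    linear_combination (2 * (p ^ 6 + 5 * g a * p ^ 4 * q ^ 2 +
      20 * g b * p ^ 3 * q ^ 3 - 5 * g a ^ 2 * p ^ 2 * q ^ 4 -
      4 * g a * g b * p * q ^ 5 -
      (8 * g b ^ 2 + g a ^ 3) * q ^ 6)) ^ 2 * ih

/-- `N⁺ N⁻ = A C` -/
theorem row_id (A B x h x0 h0 p q o : S) (hh : h ^ 2 = x ^ 3 + A * x + B) (hh0 : h0 ^ 2 = x0 ^ 3 + A * x0 + B)
    (ho : o ^ 2 * (x0 ^ 3 + A * x0 + B) = q * (p ^ 3 + A * p * q ^ 2 + B * q ^ 3)) :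
    ((x * q + p) * (x * p + A * q) + 2 * B * q ^ 2 + 2 * h * h0 * o) *
      ((x * q + p) * (x * p + A * q) + 2 * B * q ^ 2 - 2 * h * h0 * o) =
    (x * q - p) ^ 2 * ((x * p - A * q) ^ 2 - 4 * B * q * (x * q + p)) := by
  have h1 : (h * h0 * o) ^ 2 = (x ^ 3 + A * x + B) * (q * (p ^ 3 + A * p * q ^ 2 + B * q ^ 3)) := by
    rw [← ho, ← hh, ← hh0]; ring
  linear_combination (-4) * h1

/-- the lowest coefficient of a product -/
theorem coeff_low {σ F : Type} [Field F] (w : σ → ℕ) [Fintype σ] (hw : ∀ t, 0 < w t) (s : σ →₀ ℕ)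
    (Y G : MvPowerSeries σ F)
    (hG : ∀ s' : σ →₀ ℕ, ∑ t, w t * s' t < ∑ t, w t * s t → MvPowerSeries.coeff s' G = 0) :
    MvPowerSeries.coeff s (Y * G) = MvPowerSeries.constantCoeff Y * MvPowerSeries.coeff s G := by
  classical
  rw [MvPowerSeries.coeff_mul, Finset.sum_eq_single ((0 : σ →₀ ℕ), s)]
  · rfl
  · rintro ⟨u, s'⟩ hp hne
    rw [Finset.HasAntidiagonal.mem_antidiagonal] at hp
    simp only at hp
    have hu : u ≠ 0 := by
      rintro rfl
      apply hne
      rw [zero_add] at hp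
      rw [hp]
    simp only
    rw [hG s' ?_, mul_zero]
    obtain ⟨t₀, ht₀⟩ := Finsupp.ne_iff.1 hu
    rw [← hp]
    apply Finset.sum_lt_sum
    · intro t _
      apply Nat.mul_le_mul_left
      rw [Finsupp.add_apply]
      omega
    · refine ⟨t₀, Finset.mem_univ _, ?_⟩
      rw [Finsupp.add_apply]
      have h1 : 0 < u t₀ := Nat.pos_of_ne_zero ht₀
      have h2 := hw t₀
      exact Nat.mul_lt_mul_of_pos_left (by omega) h2
  · intro h
    exact absurd (Finset.HasAntidiagonal.mem_antidiagonal.2 (zero_add s)) h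

/-- proportional rows -/
theorem rows_prop {σ F : Type} [Field F] (P M A C : MvPowerSeries σ F) (hid : P * M = A * C) (V : F) (D : ℕ)
    (h1 : V * MvPowerSeries.constantCoeff A = MvPowerSeries.constantCoeff M)
    (h2 : V * MvPowerSeries.constantCoeff P = MvPowerSeries.constantCoeff C)
    (h3 : MvPowerSeries.constantCoeff A ≠ 0 ∨ MvPowerSeries.constantCoeff P ≠ 0) :
    ∃ X : MvPowerSeries σ F, MvPowerSeries.constantCoeff X = V ^ D ∧
      ∀ n ≤ D, C ^ n * M ^ (D - n) = X * (P ^ n * A ^ (D - n)) := by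
  rcases h3 with h3 | h3
  · have e1 : A * A⁻¹ = 1 := MvPowerSeries.mul_inv_cancel A h3
    refine ⟨(M * A⁻¹) ^ D, ?_, ?_⟩
    · rw [map_pow]
      congr 1
      rw [map_mul, MvPowerSeries.constantCoeff_inv, ← h1, mul_assoc, mul_inv_cancel₀ h3, mul_one]
    · intro n hn
      obtain ⟨r, rfl⟩ := Nat.exists_eq_add_of_le hn
      rw [Nat.add_sub_cancel_left, pow_add]
      have e2 : M * A⁻¹ * P = C := by
        calc M * A⁻¹ * P = (P * M) * A⁻¹ := by ring
          _ = A * A⁻¹ * C := by rw [hid]; ring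
          _ = C := by rw [e1, one_mul]
      have e3 : M * A⁻¹ * A = M := by
        calc M * A⁻¹ * A = M * (A * A⁻¹) := by ring
          _ = M := by rw [e1, mul_one]
      calc C ^ n * M ^ r = (M * A⁻¹ * P) ^ n * (M * A⁻¹ * A) ^ r := by rw [e2, e3]
        _ = _ := by rw [mul_pow, mul_pow (M * A⁻¹) A]; ring
  · have e1 : P * P⁻¹ = 1 := MvPowerSeries.mul_inv_cancel P h3
    refine ⟨(C * P⁻¹) ^ D, ?_, ?_⟩
    · rw [map_pow]
      congr 1
      rw [map_mul, MvPowerSeries.constantCoeff_inv, ← h2, mul_assoc, mul_inv_cancel₀ h3, mul_one]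
    · intro n hn
      obtain ⟨r, rfl⟩ := Nat.exists_eq_add_of_le hn
      rw [Nat.add_sub_cancel_left, pow_add]
      have e2 : C * P⁻¹ * A = M := by
        calc C * P⁻¹ * A = (A * C) * P⁻¹ := by ring
          _ = P * P⁻¹ * M := by rw [← hid]; ring
          _ = M := by rw [e1, one_mul]
      have e3 : C * P⁻¹ * P = C := by
        calc C * P⁻¹ * P = C * (P * P⁻¹) := by ring
          _ = C := by rw [e1, mul_one]
      calc C ^ n * M ^ r = (C * P⁻¹ * P) ^ n * (C * P⁻¹ * A) ^ r := by rw [e2, e3]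
        _ = _ := by rw [mul_pow, mul_pow (C * P⁻¹) A]; ring

end ev

theorem t_ROW : S_ROW := by
  classical
  intro K _ _ a b m D k F x h xx hh V w s hOn hx hh' hw hV hlow r
  have key : ∀ i j, ∃ X : MvPowerSeries (Ix m) K, MvPowerSeries.constantCoeff X = V i j ^ D i ∧
      ∀ n ≤ D i, rv a b D k (gR K m) xx hh false i j n = X * rv a b D k (gR K m) xx hh true i j n := by
    intro i j
    obtain ⟨v1, v2, v3⟩ := hV i j
    have hid := row_id (gR K m (a j)) (gR K m (b j)) (xx (some i, j)) (hh (some i, j)) (xx (none, j)) (hh (none, j))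
      ((phi (a j) (b j) (k i)).eval₂ (gR K m) (xx (none, j))) ((psi (a j) (b j) (k i)).eval₂ (gR K m) (xx (none, j)))
      ((om (a j) (b j) (k i)).eval₂ (gR K m) (xx (none, j))) (hOn _) (hOn _) (om_ev _ _ _ _ _)
    have hev : ∀ f : Polynomial (𝓞 K), MvPowerSeries.constantCoeff (f.eval₂ (gR K m) (xx (none, j))) =
        f.eval₂ (algebraMap (𝓞 K) K) (x (none, j)) := by
      intro f
      rw [Polynomial.hom_eval₂, hx]
      congr 1
    have hg : ∀ c : 𝓞 K, MvPowerSeries.constantCoeff (gR K m c) = (c : K) := fun c =>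
      MvPowerSeries.constantCoeff_C (σ := Ix m) (c : K)
    have hP := hid
    obtain ⟨X, hX1, hX2⟩ := rows_prop _ _ _ _ hid (V i j) (D i) (by
      simp only [map_add, map_sub, map_mul, map_pow, map_ofNat, hev, hx, hh', hg]
      exact v1) (by
      simp only [map_add, map_sub, map_mul, map_pow, map_ofNat, hev, hx, hh', hg]
      exact v2) (by
      simp only [map_add, map_sub, map_mul, map_pow, map_ofNat, hev, hx, hh', hg]
      exact v3)
    refine ⟨X, hX1, fun n hn => ?_⟩
    have h4 := hX2 n hn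
    unfold rv
    simp only [Bool.false_eq_true, if_false, if_true]
    exact h4
  choose X hX1 hX2 using key
  have h1 : Val a b D k (gR K m) xx hh r F = (∏ i, ∏ j, if r i j then 1 else X i j) *
      Val a b D k (gR K m) xx hh (fun _ _ => true) F := by
    unfold Val
    rw [Finset.mul_sum]
    refine Finset.sum_congr rfl fun n _ => ?_
    rw [mul_left_comm, ← Finset.prod_mul_distrib]
    congr 1
    refine Finset.prod_congr rfl fun i _ => ?_
    rw [← Finset.prod_mul_distrib]
    refine Finset.prod_congr rfl fun j _ => ?_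
    by_cases hr : r i j = true
    · rw [hr, if_pos rfl, one_mul]
    · rw [Bool.not_eq_true] at hr
      rw [hr, if_neg (by simp), hX2 i j (n i j) (Nat.lt_succ_iff.1 (n i j).2)]
  rw [h1, coeff_low w hw s _ _ hlow]
  congr 1
  rw [map_prod]
  refine Finset.prod_congr rfl fun i _ => ?_
  rw [map_prod]
  refine Finset.prod_congr rfl fun j _ => ?_
  by_cases hr : r i j = true
  · rw [if_pos hr, if_pos hr, map_one]
  · rw [if_neg hr, if_neg hr, hX1]

end Pool.Agent.J4H67.GC
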