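import Pool.Agent.J4H67.GC.Fac

set_option autoImplicit false

/-! The zero lemma. -/

open MvPolynomial Height

namespace Pool.Agent.J4H67.GC

open Pool.Agent.J4H27.GC

theorem sum_ge {c : ℝ} (hc : 0 < c) {d t W e : ℕ} (hW : 0 < W) (he : e ≤ 2 * t)
    (hd : c / 2 * (W * d : ℕ) ≤ e) :
    (min 1 (c / 8) / 4) * (d * e) ≤ ((∑ i ∈ Finset.range d, (t - i * W) : ℕ) : ℝ) := by
  set m := min d (t / (2 * W) + 1) with hm
  have hmd : m ≤ d := min_le_left _ _
  have h1 : ∀ i ∈ Finset.range m, (t : ℝ) / 2 ≤ ((t - i * W : ℕ) : ℝ) := by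
    intro i hi
    rw [Finset.mem_range] at hi
    have h2 : i ≤ t / (2 * W) := by
      have := lt_of_lt_of_le hi (min_le_right d (t / (2 * W) + 1))
      omega
    rw [Nat.le_div_iff_mul_le (by positivity)] at h2
    have h3 : t ≤ 2 * (t - i * W) := by
      have : 2 * (i * W) ≤ t := by linarith
      omega
    have h4 : (t : ℝ) ≤ 2 * ((t - i * W : ℕ) : ℝ) := by exact_mod_cast h3
    linarith
  have h5 : (m : ℝ) * (t / 2) ≤ ((∑ i ∈ Finset.range d, (t - i * W) : ℕ) : ℝ) := by
    push_cast [Nat.cast_sum]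
    calc (m : ℝ) * (t / 2) = ∑ i ∈ Finset.range m, (t : ℝ) / 2 := by
          rw [Finset.sum_const, Finset.card_range, nsmul_eq_mul]
      _ ≤ ∑ i ∈ Finset.range m, ((t - i * W : ℕ) : ℝ) := Finset.sum_le_sum h1
      _ ≤ ∑ i ∈ Finset.range d, ((t - i * W : ℕ) : ℝ) :=
          Finset.sum_le_sum_of_subset_of_nonneg (Finset.range_mono hmd) (fun _ _ _ => by positivity)
  refine le_trans ?_ h5
  have hW0 : (0 : ℝ) < W := by exact_mod_cast hW
  have het : (e : ℝ) ≤ 2 * t := by exact_mod_cast he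
  have hκ1 : min 1 (c / 8) ≤ 1 := min_le_left _ _
  have hκ2 : min 1 (c / 8) ≤ c / 8 := min_le_right _ _
  have hκ0 : 0 < min 1 (c / 8) := lt_min one_pos (by positivity)
  set κ := min 1 (c / 8) with hκ
  have h6 : κ * d ≤ m := by
    rcases Nat.le_total d (t / (2 * W) + 1) with h | h
    · have e1 : m = d := min_eq_left h
      rw [e1]
      exact mul_le_of_le_one_left (by positivity) hκ1
    · have e1 : m = t / (2 * W) + 1 := min_eq_right h
      rw [e1]
      have h7 : (t : ℝ) / (2 * W) ≤ ((t / (2 * W) + 1 : ℕ) : ℝ) := by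
        have := Nat.lt_div_mul_add (a := t) (b := 2 * W) (by positivity)
        have h8 : (t : ℝ) < ((t / (2 * W) : ℕ) : ℝ) * (2 * W) + 2 * W := by exact_mod_cast this
        rw [div_le_iff₀ (by positivity)]
        push_cast
        linarith
      refine le_trans ?_ h7
      rw [le_div_iff₀ (by positivity)]
      push_cast at hd
      have h9 : κ * d * (2 * W) ≤ c / 8 * d * (2 * W) := by gcongr
      have h10 : c / 8 * (d : ℝ) * (2 * W) = (c / 2 * (W * d)) / 2 := by ring
      linarith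
  have h11 : (0 : ℝ) ≤ t := by positivity
  calc κ / 4 * ((d : ℝ) * e) = κ * d * (e / 4) := by ring
    _ ≤ m * (t / 2) := mul_le_mul h6 (by linarith) (by positivity) (by positivity)

/-- the conclusion of the zero lemma -/
def Cn {σ K : Type} [DecidableEq σ] [Field K] [NumberField K] (w : σ → ℕ) (a : σ → K) (Δ B' : ℝ) : Prop :=
  ∃ (i j : σ) (Q : MvPolynomial σ K), i ≠ j ∧ w i = w j ∧ Irreducible Q ∧ Q.vars ⊆ {i, j} ∧
      0 < Q.degreeOf i ∧ 0 < Q.degreeOf j ∧ (Q.degreeOf i : ℝ) + Q.degreeOf j ≤ Δ ∧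
      eval a Q = 0 ∧ hp Q ≤ B' * w i

theorem Cn_mono {σ K : Type} [DecidableEq σ] [Field K] [NumberField K] {w : σ → ℕ} {a : σ → K} {Δ B' Δ₁ B₁ : ℝ}
    (h : Cn w a Δ B') (h1 : Δ ≤ Δ₁) (h2 : B' ≤ B₁) : Cn w a Δ₁ B₁ := by
  obtain ⟨i, j, Q, q1, q2, q3, q4, q5, q6, q7, q8, q9⟩ := h
  refine ⟨i, j, Q, q1, q2, q3, q4, q5, q6, q7.trans h1, q8, q9.trans ?_⟩
  exact mul_le_mul_of_nonneg_right h2 (by positivity)

theorem Cn_rename {σ τ K : Type} [DecidableEq σ] [DecidableEq τ] [Field K] [NumberField K] {f : σ → τ}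
    (hf : Function.Injective f) {w : τ → ℕ} {a : τ → K} {Δ B' : ℝ} (h : Cn (w ∘ f) (a ∘ f) Δ B') : Cn w a Δ B' := by
  obtain ⟨i, j, Q, q1, q2, q3, q4, q5, q6, q7, q8, q9⟩ := h
  refine ⟨f i, f j, rename f Q, fun h => q1 (hf h), q2, irr_rename hf q3, vars_rename_sub q4, ?_, ?_, ?_, ?_, ?_⟩
  · rw [degreeOf_rename_of_injective hf]; exact q5
  · rw [degreeOf_rename_of_injective hf]; exact q6
  · rw [degreeOf_rename_of_injective hf, degreeOf_rename_of_injective hf]; exact q7
  · rw [eval_rename]; exact q8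
  · rw [hp_rename hf]; exact q9

/-- the zero lemma for given constants -/
def ZC (K : Type) [Field K] [NumberField K] (σ : Type) [Fintype σ] [DecidableEq σ] (c B : ℝ) : Prop :=
  ∃ (R : ℕ) (H Δ B' : ℝ), ∀ (w : σ → ℕ) (a : σ → K),
  (∀ i, 0 < w i) → (∀ i j, w i < w j → R * w i ≤ w j) →
  (∀ i j k, w i = w j → w j = w k → i = j ∨ j = k ∨ i = k) →
  (∀ i, H * w i ≤ logHeight₁ (a i)) →
  ∀ (P : MvPolynomial σ K) (t : ℕ), P ≠ 0 → 0 < t → Ow w a P t → c * Nd w P ≤ t →
    hp P ≤ B * t → Cn w a Δ B'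

/-- the recursion step: eliminating the variable `l` -/
theorem recur {K : Type} [Field K] [NumberField K] {n : ℕ} {γ₂ : ℝ} (hγ₂ : 0 ≤ γ₂)
    (hR : ∀ P Q : MvPolynomial (Fin (n + 1)) K, Irreducible P → 0 < P.degreeOf 0 → Q ≠ 0 → ¬ P ∣ Q →
    (∀ i, Q.degreeOf i ≤ P.degreeOf i) →
    ∃ R : MvPolynomial (Fin n) K, R ≠ 0 ∧
      (∀ i, R.degreeOf i ≤ 2 * P.degreeOf 0 * P.degreeOf i.succ) ∧
      hp R ≤ P.degreeOf 0 * (hp P + hp Q + γ₂ * ∑ i, (P.degreeOf i : ℝ)) ∧
      ∀ (w : Fin (n + 1) → ℕ) (a : Fin (n + 1) → K) (t : ℕ), Ow w a P t → Ow w a Q t →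
        Ow (fun i : Fin n => w i.succ) (fun i : Fin n => a i.succ) R
          (∑ c ∈ Finset.range (P.degreeOf 0), (t - c * w 0)))
    {c B : ℝ} (hc : 0 < c) (hB : 0 ≤ B) {w : Fin (n + 1) → ℕ} (hw : ∀ i, 0 < w i) {a : Fin (n + 1) → K}
    {Q : MvPolynomial (Fin (n + 1)) K} (hQ : Irreducible Q) (h0 : 0 < on w a Q) (hN : c / 2 * Nd w Q ≤ on w a Q)
    (hh : hp Q ≤ B * on w a Q) {l k : Fin (n + 1)} (hl : 0 < Q.degreeOf l) (hk : 0 < Q.degreeOf k)
    (hwk : 2 * w k ≤ on w a Q) :
    ∃ (f : Fin n → Fin (n + 1)) (R : MvPolynomial (Fin n) K) (T : ℕ), Function.Injective f ∧ R ≠ 0 ∧ 0 < T ∧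
      Ow (w ∘ f) (a ∘ f) R T ∧ c * (min 1 (c / 8) / 4) / 4 * Nd (w ∘ f) R ≤ T ∧
      hp R ≤ (2 * B + (γ₂ + totalWeight K) * (2 / c)) / (min 1 (c / 8) / 4) * T := by
  set e := on w a Q with he
  set c₁ := min 1 (c / 8) / 4 with hc₁
  have hc₁0 : 0 < c₁ := by
    rw [hc₁]
    have : 0 < min 1 (c / 8) := lt_min one_pos (by positivity)
    positivity
  set s : Fin (n + 1) ≃ Fin (n + 1) := Equiv.swap l 0 with hs
  have hss : ∀ i, s (s i) = i := fun i => Equiv.swap_apply_self l 0 i
  have hsl : s l = 0 := Equiv.swap_apply_left l 0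
  have hs0 : s 0 = l := Equiv.swap_apply_right l 0
  set D := pderiv k Q with hD
  have hD0 : D ≠ 0 := pderiv_ne_zero hk
  have hdeg : ∀ (F : MvPolynomial (Fin (n + 1)) K) (i : Fin (n + 1)), (rename s F).degreeOf i = F.degreeOf (s i) := by
    intro F i
    conv_lhs => rw [← hss i]
    exact degreeOf_rename_of_injective s.injective (s i)
  have hQ1 : Irreducible (rename s Q) := irr_rename s.injective hQ
  have hndvd : ¬ rename s Q ∣ rename s D := by
    intro hd
    have h1 := map_dvd (rename s) hd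
    rw [rename_rename, rename_rename] at h1
    have e1 : (s : Fin (n + 1) → Fin (n + 1)) ∘ s = id := by funext i; exact hss i
    rw [e1, rename_id, AlgHom.id_apply, AlgHom.id_apply] at h1
    exact not_dvd_pderiv hk h1
  have hinj := rename_injective (R := K) s s.injective
  obtain ⟨R, r1, r2, r3, r4⟩ := hR (rename s Q) (rename s D) hQ1 (by rw [hdeg, hs0]; exact hl)
    (by
      intro h
      exact hD0 (hinj (by rw [h, map_zero]))) hndvd (by
      intro i
      rw [hdeg, hdeg]
      exact degreeOf_pderiv_le Q k _)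
  set d := Q.degreeOf l with hd
  rw [hdeg, hs0] at r3
  rw [hp_rename s.injective, hp_rename s.injective] at r3
  set t := e - w k with ht
  have hww : ((w ∘ s) ∘ s) = w := by funext i; simp [hss]
  have haa : ((a ∘ s) ∘ s) = a := by funext i; simp [hss]
  have o1 : Ow w a Q e := on_spec w a hQ.ne_zero
  have o2 : Ow w a Q t := fun x hx => (Nat.sub_le _ _).trans (o1 x hx)
  have o3 : Ow w a D t := Ow_pderiv o1 k
  have o4 := r4 (w ∘ s) (a ∘ s) t ((Ow_rename s _ _ Q t).2 (by rw [hww, haa]; exact o2))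
    ((Ow_rename s _ _ D t).2 (by rw [hww, haa]; exact o3))
  rw [hdeg, hs0, show (w ∘ s) 0 = w l by simp [hs0]] at o4
  set T := ∑ i ∈ Finset.range d, (t - i * w l) with hT
  have he2 : e ≤ 2 * t := by omega
  have hWd : c / 2 * ((w l * d : ℕ) : ℝ) ≤ e := by
    refine le_trans ?_ hN
    apply mul_le_mul_of_nonneg_left _ (by positivity)
    exact_mod_cast deg_one_le_Nd w Q l
  have hTge := sum_ge hc (hw l) he2 hWd
  rw [← hc₁, ← hT] at hTge
  have hdpos : (0 : ℝ) < d := by exact_mod_cast hl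
  have hepos : (0 : ℝ) < e := by exact_mod_cast h0
  have hTpos : (0 : ℝ) < T := lt_of_lt_of_le (by positivity) hTge
  have hNe : (Nd w Q : ℝ) ≤ 2 / c * e := by
    have h1 : c * Nd w Q ≤ 2 * e := by linarith
    rw [div_mul_eq_mul_div, le_div_iff₀ hc, mul_comm]
    exact h1
  refine ⟨s ∘ Fin.succ, R, T, s.injective.comp (Fin.succ_injective n), r1, by exact_mod_cast hTpos, o4, ?_, ?_⟩
  · have h1 : Nd (w ∘ (s ∘ Fin.succ)) R ≤ 2 * d * Nd w Q := by
      have h2 : Nd (w ∘ (s ∘ Fin.succ)) R ≤ ∑ i : Fin n, 2 * d * ((w ∘ s) i.succ * (rename s Q).degreeOf i.succ) := by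
        unfold Nd
        apply Finset.sum_le_sum
        intro i _
        have h3 := r2 i
        rw [hdeg _ 0, hs0] at h3
        calc (w ∘ (s ∘ Fin.succ)) i * R.degreeOf i ≤ (w ∘ (s ∘ Fin.succ)) i * (2 * d * (rename s Q).degreeOf i.succ) :=
              Nat.mul_le_mul_left _ h3
          _ = _ := by simp only [Function.comp]; ring
      refine h2.trans ?_
      rw [← Finset.mul_sum]
      apply Nat.mul_le_mul_left
      have h4 : Nd w Q = Nd (w ∘ s) (rename s Q) := by
        rw [Nd_rename, hww]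
      rw [h4]
      unfold Nd
      rw [Fin.sum_univ_succ]
      exact Nat.le_add_left _ _
    have h5 : (Nd (w ∘ (s ∘ Fin.succ)) R : ℝ) ≤ 2 * d * (2 / c * e) := by
      have h6 : (Nd (w ∘ (s ∘ Fin.succ)) R : ℝ) ≤ 2 * d * Nd w Q := by exact_mod_cast h1
      refine h6.trans ?_
      exact mul_le_mul_of_nonneg_left hNe (by positivity)
    calc c * c₁ / 4 * (Nd (w ∘ (s ∘ Fin.succ)) R : ℝ) ≤ c * c₁ / 4 * (2 * d * (2 / c * e)) :=
          mul_le_mul_of_nonneg_left h5 (by positivity)
      _ = c₁ * (d * e) := by field_simp; norm_num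
      _ ≤ T := hTge
  · have h1 := hp_pderiv_le (K := K) k Q
    rw [← hD] at h1
    have h2 : ((Q.degreeOf k : ℕ) : ℝ) ≤ 2 / c * e := by
      refine le_trans ?_ hNe
      have h3 := deg_one_le_Nd w Q k
      have h4 : Q.degreeOf k ≤ w k * Q.degreeOf k := Nat.le_mul_of_pos_left _ (hw k)
      exact_mod_cast h4.trans h3
    have h3 : (totalWeight K : ℝ) * Q.degreeOf k ≤ totalWeight K * (2 / c * e) :=
      mul_le_mul_of_nonneg_left h2 (by positivity)
    have h4 : ∑ i, ((rename s Q).degreeOf i : ℝ) ≤ 2 / c * e := by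
      refine le_trans ?_ hNe
      have h5 := deg_le_Nd hw Q
      have h6 : ∑ i, (rename s Q).degreeOf i = ∑ i, Q.degreeOf i := by
        rw [← Equiv.sum_comp s]
        apply Finset.sum_congr rfl
        intro i _
        rw [hdeg, hss]
      rw [← h6] at h5
      exact_mod_cast h5
    have h5 : γ₂ * ∑ i, ((rename s Q).degreeOf i : ℝ) ≤ γ₂ * (2 / c * e) := mul_le_mul_of_nonneg_left h4 hγ₂
    have h6 : hp R ≤ d * ((2 * B + (γ₂ + totalWeight K) * (2 / c)) * e) := by
      refine r3.trans ?_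
      apply mul_le_mul_of_nonneg_left _ hdpos.le
      calc hp Q + hp D + γ₂ * ∑ i, ((rename s Q).degreeOf i : ℝ) ≤
          B * e + (B * e + totalWeight K * (2 / c * e)) + γ₂ * (2 / c * e) := by linarith
        _ = _ := by ring
    refine h6.trans ?_
    have h7 : 0 ≤ (2 * B + (γ₂ + totalWeight K) * (2 / c)) / c₁ := by positivity
    calc (d : ℝ) * ((2 * B + (γ₂ + totalWeight K) * (2 / c)) * e) =
        (2 * B + (γ₂ + totalWeight K) * (2 / c)) / c₁ * (c₁ * (d * e)) := by field_simp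
      _ ≤ _ := mul_le_mul_of_nonneg_left hTge h7

theorem zl_fin (hGEL : S_GEL) (hRES : S_RES) (K : Type) [Field K] [NumberField K] : ∀ (n : ℕ) (c B : ℝ), 0 < c →
    0 ≤ B → ZC K (Fin n) c B := by
  intro n
  induction n with
  | zero =>
    intro c B _ _
    refine ⟨0, 0, 0, 0, fun w a _ _ _ _ P t hP ht hO _ _ => ?_⟩
    exfalso
    obtain ⟨s, hs⟩ := Finset.nonempty_iff_ne_empty.2 (support_eq_empty.not.2 (tr_ne_zero a hP))
    have := hO s hs
    simp at this
    omega
  | succ n ih =>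
    intro c B hc hB
    obtain ⟨γ₁, hγ₁, hG⟩ := hGEL K (n + 1)
    obtain ⟨γ₂, hγ₂, hR⟩ := hRES K n
    set B₂ := 2 * (B + γ₁ / c) + 1 with hB₂
    have hB₂0 : 0 < B₂ := by positivity
    obtain ⟨R', H', Δ', B', hrec⟩ := ih (c * (min 1 (c / 8) / 4) / 4)
      ((2 * B₂ + (γ₂ + totalWeight K) * (2 / c)) / (min 1 (c / 8) / 4)) (by
        have : 0 < min 1 (c / 8) := lt_min one_pos (by positivity)
        positivity) (by
        have : 0 < min 1 (c / 8) := lt_min one_pos (by positivity)
        positivity)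
    refine ⟨max R' ⌈4 / c⌉₊, max H' (B₂ + 1), max Δ' (4 / c), max B' (2 * B₂), ?_⟩
    intro w a hw hgap htwo hH P t hP ht hO hN hh
    obtain ⟨Q, hQ, h0, hNQ, hhQ⟩ := exists_factor hγ₁ hG hc hB hw hP ht hO hN hh
    rw [← hB₂] at hhQ
    set e := on w a Q with he
    have hepos : (0 : ℝ) < e := by exact_mod_cast h0
    have hev : eval a Q = 0 := eval_eq_zero_of_on h0
    have hvne : Q.vars.Nonempty := by
      rw [Finset.nonempty_iff_ne_empty]
      intro hv
      rw [vars_eq_empty_iff_eq_C] at hv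
      rw [hv] at hev
      rw [eval_C] at hev
      rw [hev, C_0] at hv
      exact hQ.ne_zero hv
    obtain ⟨l, hl, hlmax⟩ := Finset.exists_max_image Q.vars w hvne
    have hpos : ∀ k ∈ Q.vars, 0 < Q.degreeOf k := fun k hk =>
      Nat.pos_of_ne_zero (mem_vars_iff_degreeOf_ne_zero.1 hk)
    by_cases hA : ∀ k ∈ Q.vars, k = l
    · -- one variable
      exfalso
      obtain ⟨r, hr, hQe⟩ := irr_single hQ (l := l) (fun k hk => by rw [Finset.mem_singleton]; exact hA k hk) hev
      have hXne : (X l - C (a l) : MvPolynomial (Fin (n + 1)) K) ≠ 0 := by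
        intro h; rw [hQe, h, mul_zero] at hQ; exact not_irreducible_zero hQ
      have h1 : e ≤ w l := by
        have : e = on w a (X l - C (a l)) := by
          rw [he, hQe, on_mul w a (by simpa using hr) hXne, on_C w a hr, zero_add]
        rw [this]
        exact on_X_sub w a l
      have h2 : logHeight₁ (a l) ≤ hp Q := by
        rw [hQe, hp_C_mul hr]
        exact le_hp_X_sub l (a l)
      have h3 := hH l
      have h4 : (B₂ + 1) * (w l : ℝ) ≤ max H' (B₂ + 1) * w l :=
        mul_le_mul_of_nonneg_right (le_max_right _ _) (by positivity)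
      have h5 : (e : ℝ) ≤ w l := by exact_mod_cast h1
      have h6 : B₂ * (e : ℝ) ≤ B₂ * w l := mul_le_mul_of_nonneg_left h5 hB₂0.le
      have h7 : (0 : ℝ) < w l := by exact_mod_cast hw l
      linarith
    · push Not at hA
      obtain ⟨k₀, hk₀, hk₀l⟩ := hA
      by_cases hBc : ∃ k ∈ Q.vars, 2 * w k ≤ e
      · obtain ⟨k, hk, hwk⟩ := hBc
        obtain ⟨f, R, T, hf, hR0, hT, hOR, hNR, hhR⟩ := recur hγ₂ hR hc hB₂0.le hw hQ h0 hNQ hhQ (hpos l hl)
          (hpos k hk) hwk
        have h1 := hrec (w ∘ f) (a ∘ f) (fun i => hw (f i)) (fun i j hij => by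
            refine le_trans ?_ (hgap (f i) (f j) hij)
            exact Nat.mul_le_mul_right _ (le_max_left _ _))
          (fun i j k hij hjk => by
            rcases htwo (f i) (f j) (f k) hij hjk with h | h | h
            · exact Or.inl (hf h)
            · exact Or.inr (Or.inl (hf h))
            · exact Or.inr (Or.inr (hf h)))
          (fun i => by
            refine le_trans ?_ (hH (f i))
            exact mul_le_mul_of_nonneg_right (le_max_left _ _) (by positivity)) R T hR0 hT hOR hNR hhR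
        exact Cn_mono (Cn_rename hf h1) (le_max_left _ _) (le_max_left _ _)
      · push Not at hBc
        have hdl := hpos l hl
        have hwl : (w l : ℝ) ≤ 2 / c * e := by
          have h1 := deg_one_le_Nd w Q l
          have h2 : w l ≤ w l * Q.degreeOf l := Nat.le_mul_of_pos_right _ hdl
          have h3 : (w l : ℝ) ≤ Nd w Q := by exact_mod_cast h2.trans h1
          refine h3.trans ?_
          rw [div_mul_eq_mul_div, le_div_iff₀ hc, mul_comm]
          linarith
        have hweq : ∀ k ∈ Q.vars, w k = w l := by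
          intro k hk
          by_contra hne
          have hlt : w k < w l := lt_of_le_of_ne (hlmax k hk) hne
          have h1 := hgap k l hlt
          have h2 : ((⌈4 / c⌉₊ * w k : ℕ) : ℝ) ≤ w l := by
            have : ⌈4 / c⌉₊ * w k ≤ w l := le_trans (Nat.mul_le_mul_right _ (le_max_right _ _)) h1
            exact_mod_cast this
          have h3 : 4 / c * (w k : ℝ) ≤ w l := by
            refine le_trans ?_ h2
            push_cast
            exact mul_le_mul_of_nonneg_right (Nat.le_ceil _) (by positivity)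
          have h4 : (e : ℝ) < 2 * w k := by exact_mod_cast hBc k hk
          have h5 : 2 / c * (e : ℝ) < 2 / c * (2 * w k) := mul_lt_mul_of_pos_left h4 (by positivity)
          have h6 : 2 / c * (2 * (w k : ℝ)) = 4 / c * w k := by ring
          linarith
        have hsub : Q.vars ⊆ {l, k₀} := by
          intro k hk
          rw [Finset.mem_insert, Finset.mem_singleton]
          have h1 := hweq k hk
          have h2 := hweq k₀ hk₀
          rcases htwo k l k₀ h1 h2.symm with h | h | h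
          · exact Or.inl h
          · exact absurd h.symm hk₀l
          · exact Or.inr h
        have hwl0 : (0 : ℝ) < w l := by exact_mod_cast hw l
        have hel : (e : ℝ) < 2 * w l := by exact_mod_cast hBc l hl
        refine ⟨l, k₀, Q, Ne.symm hk₀l, (hweq k₀ hk₀).symm, hQ, hsub, hdl, hpos k₀ hk₀, ?_, hev, ?_⟩
        · refine le_trans ?_ (le_max_right _ _)
          have h1 := deg_two_le_Nd w Q (Ne.symm hk₀l)
          rw [hweq k₀ hk₀] at h1
          have h2 : (w l : ℝ) * (Q.degreeOf l + Q.degreeOf k₀) ≤ Nd w Q := by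
            have : w l * (Q.degreeOf l + Q.degreeOf k₀) ≤ Nd w Q := by rw [mul_add]; exact h1
            exact_mod_cast this
          have h3 : c / 2 * ((w l : ℝ) * (Q.degreeOf l + Q.degreeOf k₀)) ≤ 2 * w l := by
            have := mul_le_mul_of_nonneg_left h2 (by positivity : 0 ≤ c / 2)
            linarith
          rw [le_div_iff₀ hc]
          have h4 : (w l : ℝ) * (((Q.degreeOf l : ℝ) + Q.degreeOf k₀) * c) ≤ w l * 4 := by linarith
          exact le_of_mul_le_mul_left h4 hwl0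
        · refine hhQ.trans ?_
          have h1 : B₂ * (e : ℝ) ≤ B₂ * (2 * w l) := mul_le_mul_of_nonneg_left hel.le hB₂0.le
          refine h1.trans ?_
          have h2 : (2 * B₂) * (w l : ℝ) ≤ max B' (2 * B₂) * w l :=
            mul_le_mul_of_nonneg_right (le_max_right _ _) hwl0.le
          linarith

theorem t_ZL (hGEL : S_GEL) (hRES : S_RES) : S_ZL := by
  intro K _ _ σ _ _ c B hc hB
  obtain ⟨n, ⟨s⟩⟩ : ∃ n, Nonempty (σ ≃ Fin n) := ⟨_, ⟨Fintype.equivFin σ⟩⟩
  obtain ⟨R, H, Δ, B', hz⟩ := zl_fin hGEL hRES K n c B hc hB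
  refine ⟨R, H, Δ, B', fun w a hw hgap htwo hH P t hP ht hO hN hh => ?_⟩
  have hww : (w ∘ s.symm) ∘ s = w := by funext i; simp
  have haa : (a ∘ s.symm) ∘ s = a := by funext i; simp
  have h1 := hz (w ∘ s.symm) (a ∘ s.symm) (fun i => hw _) (fun i j hij => hgap _ _ hij)
    (fun i j k hij hjk => by
      rcases htwo (s.symm i) (s.symm j) (s.symm k) hij hjk with h | h | h
      · exact Or.inl (s.symm.injective h)
      · exact Or.inr (Or.inl (s.symm.injective h))
      · exact Or.inr (Or.inr (s.symm.injective h)))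
    (fun i => hH _) (rename s P) t (by
      intro h
      exact hP (rename_injective (R := K) s s.injective (by rw [h, map_zero]))) ht
    ((Ow_rename s _ _ P t).2 (by rw [hww, haa]; exact hO)) (by rw [Nd_rename, hww]; exact hN)
    (by rw [hp_rename s.injective]; exact hh)
  exact Cn_rename s.symm.injective h1

end Pool.Agent.J4H67.GC
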