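import Pool.Agent.J4H67.GC.Hgt

set_option autoImplicit false

/-! Choice of a good irreducible factor; renaming of the variables. -/

open MvPolynomial Height

namespace Pool.Agent.J4H67.GC

open Pool.Agent.J4H27.GC

/-- averaging -/
theorem exists_good {M : Type} (s : Multiset M) (o N : M → ℕ) (h : M → ℝ) {c B : ℝ} (hc : 0 < c) (hB : 0 ≤ B)
    (hh : ∀ x ∈ s, 0 ≤ h x) (h0 : 0 < (s.map o).sum) (h1 : c * ((s.map N).sum : ℝ) ≤ ((s.map o).sum : ℕ))
    (h2 : (s.map h).sum ≤ B * ((s.map o).sum : ℕ)) :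
    ∃ x ∈ s, 0 < o x ∧ c / 2 * N x ≤ o x ∧ h x ≤ (2 * B + 1) * o x := by
  by_contra hcon
  push Not at hcon
  have hB2 : 0 < 2 * B + 1 := by linarith
  set g : M → ℝ := fun x => c / 2 * N x + h x / (2 * B + 1) with hg
  have key : ∀ x ∈ s, 0 < o x → (o x : ℝ) < g x := by
    intro x hx ho
    have hox : (0 : ℝ) < o x := by exact_mod_cast ho
    have hhx := hh x hx
    by_cases h3 : c / 2 * N x ≤ o x
    · have h4 := hcon x hx ho h3
      have h5 : (o x : ℝ) < h x / (2 * B + 1) := by
        rw [lt_div_iff₀ hB2, mul_comm]; exact h4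
      have h6 : 0 ≤ c / 2 * N x := by positivity
      rw [hg]; simp only; linarith
    · push Not at h3
      have h6 : 0 ≤ h x / (2 * B + 1) := by positivity
      rw [hg]; simp only; linarith
  have hle : ∀ x ∈ s, (o x : ℝ) ≤ g x := by
    intro x hx
    rcases Nat.eq_zero_or_pos (o x) with h3 | h3
    · have hhx := hh x hx
      rw [h3, hg]; simp only; rw [Nat.cast_zero]; positivity
    · exact (key x hx h3).le
  obtain ⟨x₀, hx₀, ho₀⟩ : ∃ x ∈ s, 0 < o x := by
    by_contra hcon2
    push Not at hcon2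
    have : (s.map o).sum = 0 := by
      apply Multiset.sum_eq_zero
      intro y hy
      rw [Multiset.mem_map] at hy
      obtain ⟨x, hx, rfl⟩ := hy
      exact Nat.le_zero.1 (hcon2 x hx)
    omega
  have hlt : (s.map (fun x => (o x : ℝ))).sum < (s.map g).sum :=
    Multiset.sum_lt_sum hle ⟨x₀, hx₀, key x₀ hx₀ ho₀⟩
  have e1 : (s.map (fun x => (o x : ℝ))).sum = ((s.map o).sum : ℕ) := by
    rw [Nat.cast_multiset_sum, Multiset.map_map]; rfl
  have e2 : (s.map g).sum = c / 2 * ((s.map N).sum : ℕ) + (s.map h).sum / (2 * B + 1) := by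
    rw [hg, Multiset.sum_map_add, Multiset.sum_map_mul_left, Multiset.sum_map_div, Nat.cast_multiset_sum,
      Multiset.map_map]
    rfl
  rw [e1, e2] at hlt
  have h7 : (s.map h).sum / (2 * B + 1) ≤ 1 / 2 * ((s.map o).sum : ℕ) := by
    rw [div_le_iff₀ hB2]
    have h8 : (0 : ℝ) ≤ ((s.map o).sum : ℕ) := by positivity
    nlinarith
  linarith

section fac

variable {σ K : Type} [Fintype σ] [Field K] [NumberField K]

/-- a good irreducible factor -/
theorem exists_factor {γ : ℝ} (hγ : 0 ≤ γ)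
    (hG : ∀ s : Multiset (MvPolynomial σ K), (∀ P ∈ s, P ≠ 0) →
      (s.map hp).sum ≤ hp s.prod + γ * ∑ i, (s.prod.degreeOf i : ℝ))
    {c B : ℝ} (hc : 0 < c) (hB : 0 ≤ B) {w : σ → ℕ} (hw : ∀ i, 0 < w i) {a : σ → K} {P : MvPolynomial σ K} {t : ℕ}
    (hP : P ≠ 0) (ht : 0 < t) (hO : Ow w a P t) (hN : c * Nd w P ≤ t) (hh : hp P ≤ B * t) :
    ∃ Q : MvPolynomial σ K, Irreducible Q ∧ 0 < on w a Q ∧ c / 2 * Nd w Q ≤ on w a Q ∧
      hp Q ≤ (2 * (B + γ / c) + 1) * on w a Q := by
  obtain ⟨f, hf, u, hu⟩ := WfDvdMonoid.exists_factors P hP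
  obtain ⟨r, hr, hr'⟩ := (isUnit_iff_eq_C_of_isReduced (P := (u : MvPolynomial σ K))).1 u.isUnit
  have hr0 : r ≠ 0 := hr.ne_zero
  have hf0 : ∀ Q ∈ f, Q ≠ 0 := fun Q hQ => (hf Q hQ).ne_zero
  have hprod : f.prod ≠ 0 := Multiset.prod_ne_zero (fun h => hf0 0 h rfl)
  have hPe : P = C r * f.prod := by rw [← hu, hr', mul_comm]
  have hon : on w a P = on w a f.prod := by
    rw [hPe, on_mul w a (by simpa using hr0) hprod, on_C w a hr0, zero_add]
  have hNd : Nd w P = Nd w f.prod := by
    rw [hPe, Nd_mul w (by simpa using hr0) hprod, Nd_C, zero_add]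
  have hhp : hp P = hp f.prod := by rw [hPe, hp_C_mul hr0]
  have sum_on : ∀ s : Multiset (MvPolynomial σ K), (∀ Q ∈ s, Q ≠ 0) → on w a s.prod = (s.map (on w a)).sum := by
    intro s
    induction s using Multiset.induction with
    | empty =>
      intro _
      rw [Multiset.prod_zero, Multiset.map_zero, Multiset.sum_zero, ← C_1, on_C w a one_ne_zero]
    | cons Q s ih =>
      intro hs
      have h1 : ∀ Q ∈ s, Q ≠ 0 := fun x hx => hs x (Multiset.mem_cons_of_mem hx)
      rw [Multiset.prod_cons, Multiset.map_cons, Multiset.sum_cons,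
        on_mul w a (hs Q (Multiset.mem_cons_self Q s)) (Multiset.prod_ne_zero (fun h => h1 0 h rfl)), ih h1]
  have sum_Nd : ∀ s : Multiset (MvPolynomial σ K), (∀ Q ∈ s, Q ≠ 0) → Nd w s.prod = (s.map (Nd w)).sum := by
    intro s
    induction s using Multiset.induction with
    | empty =>
      intro _
      rw [Multiset.prod_zero, Multiset.map_zero, Multiset.sum_zero, ← C_1, Nd_C]
    | cons Q s ih =>
      intro hs
      have h1 : ∀ Q ∈ s, Q ≠ 0 := fun x hx => hs x (Multiset.mem_cons_of_mem hx)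
      rw [Multiset.prod_cons, Multiset.map_cons, Multiset.sum_cons,
        Nd_mul w (hs Q (Multiset.mem_cons_self Q s)) (Multiset.prod_ne_zero (fun h => h1 0 h rfl)), ih h1]
  have hto : t ≤ on w a P := (Ow_iff w a hP t).1 hO
  have htr : (t : ℝ) ≤ on w a P := by exact_mod_cast hto
  have hsum0 : 0 < (f.map (on w a)).sum := by rw [← sum_on f hf0, ← hon]; omega
  have hg := hG f hf0
  have hNd2 : (∑ i, (f.prod.degreeOf i : ℝ)) ≤ Nd w P := by
    rw [hNd]
    have := deg_le_Nd (σ := σ) hw f.prod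
    exact_mod_cast this
  have hB1 : (f.map hp).sum ≤ (B + γ / c) * ((f.map (on w a)).sum : ℕ) := by
    rw [← sum_on f hf0, ← hon]
    have h3 : (Nd w P : ℝ) ≤ on w a P / c := by
      rw [le_div_iff₀ hc, mul_comm]; linarith
    have h4 : γ * ∑ i, (f.prod.degreeOf i : ℝ) ≤ γ * (on w a P / c) :=
      mul_le_mul_of_nonneg_left (hNd2.trans h3) hγ
    have h5 : B * (t : ℝ) ≤ B * on w a P := mul_le_mul_of_nonneg_left htr hB
    rw [← hhp] at hg
    calc (f.map hp).sum ≤ B * on w a P + γ * (on w a P / c) := by linarith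
      _ = (B + γ / c) * on w a P := by ring
  obtain ⟨Q, hQ, h3, h4, h5⟩ := exists_good f (on w a) (Nd w) hp hc (by positivity : 0 ≤ B + γ / c)
    (fun Q _ => hp_nonneg Q) hsum0 (by
      rw [← sum_on f hf0, ← hon, ← sum_Nd f hf0, ← hNd]
      linarith) hB1
  exact ⟨Q, hf Q hQ, h3, h4, h5⟩

end fac

section ren

variable {σ τ K : Type} [Field K]

theorem irr_rename {f : σ → τ} (hf : Function.Injective f) {P : MvPolynomial σ K} (h : Irreducible P) :
    Irreducible (rename f P) := by
  classical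
  set e : σ ≃ Set.range f := Equiv.ofInjective f hf with he
  have h1 : Irreducible (rename e P) := by
    have := (MulEquiv.irreducible_iff (renameEquiv K e) (x := P)).2 h
    simpa using this
  have h2 : Prime (rename e P) := h1.prime
  have h3 := (prime_rename_iff (Set.range f) (p := rename e P)).2 h2
  rw [rename_rename] at h3
  have e2 : ((↑) : Set.range f → τ) ∘ e = f := by
    funext i
    simp [he]
  rw [e2] at h3
  exact h3.irreducible

theorem vars_rename_sub [DecidableEq σ] [DecidableEq τ] {f : σ → τ} {P : MvPolynomial σ K} {i j : σ}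
    (h : P.vars ⊆ {i, j}) : (rename f P).vars ⊆ {f i, f j} := by
  intro x hx
  have h1 := vars_rename f P hx
  rw [Finset.mem_image] at h1
  obtain ⟨y, hy, rfl⟩ := h1
  have h2 := h hy
  rw [Finset.mem_insert, Finset.mem_singleton] at h2 ⊢
  rcases h2 with rfl | rfl
  · exact Or.inl rfl
  · exact Or.inr rfl

theorem tr_rename (f : σ → τ) (a : τ → K) (P : MvPolynomial σ K) :
    tr a (rename f P) = rename f (tr (a ∘ f) P) := by
  induction P using MvPolynomial.induction_on with
  | C c => rw [rename_C, tr_C, tr_C, rename_C]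
  | add p q hp hq => rw [map_add, tr_add, tr_add, map_add, hp, hq]
  | mul_X p i hp =>
    rw [map_mul, tr_mul, tr_mul, map_mul, hp, rename_X, tr_X, tr_X, map_add, rename_X, rename_C]
    rfl

theorem Ow_rename [Fintype σ] [Fintype τ] (e : σ ≃ τ) (w : τ → ℕ) (a : τ → K) (P : MvPolynomial σ K) (t : ℕ) :
    Ow w a (rename e P) t ↔ Ow (w ∘ e) (a ∘ e) P t := by
  classical
  unfold Ow
  rw [tr_rename]
  have key : ∀ s : σ →₀ ℕ, ∑ i, w i * (Finsupp.mapDomain e s) i = ∑ i, (w ∘ e) i * s i := by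
    intro s
    rw [← Equiv.sum_comp e]
    apply Finset.sum_congr rfl
    intro i _
    rw [Finsupp.mapDomain_apply e.injective]; rfl
  rw [support_rename_of_injective e.injective]
  constructor
  · intro h s hs
    rw [← key]
    exact h _ (Finset.mem_image_of_mem _ hs)
  · intro h s hs
    rw [Finset.mem_image] at hs
    obtain ⟨s', hs', rfl⟩ := hs
    rw [key]
    exact h s' hs'

theorem Nd_rename [Fintype σ] [Fintype τ] (e : σ ≃ τ) (w : τ → ℕ) (P : MvPolynomial σ K) :
    Nd w (rename e P) = Nd (w ∘ e) P := by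
  unfold Nd
  rw [← Equiv.sum_comp e]
  apply Finset.sum_congr rfl
  intro i _
  rw [degreeOf_rename_of_injective e.injective]; rfl

end ren

section single

variable {σ K : Type} [Field K]

/-- an irreducible polynomial in one variable with a rational zero -/
theorem irr_single [DecidableEq σ] {Q : MvPolynomial σ K} (hQ : Irreducible Q) {l : σ} (hv : Q.vars ⊆ {l}) {a : σ → K}
    (ha : eval a Q = 0) : ∃ r : K, r ≠ 0 ∧ Q = C r * (X l - C (a l)) := by
  have h1 : Q ∈ supported K ({l} : Set σ) := by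
    rw [mem_supported]
    intro x hx
    have := hv hx
    simpa using this
  rw [supported_eq_adjoin_X, Set.image_singleton, Algebra.adjoin_singleton_eq_range_aeval] at h1
  obtain ⟨q, hq⟩ := h1
  have hq' : Polynomial.aeval (X l : MvPolynomial σ K) q = Q := hq
  have h2 : q.eval (a l) = 0 := by
    rw [← hq', ← MvPolynomial.aeval_eq_eval, ← Polynomial.aeval_algHom_apply, aeval_X] at ha
    simpa using ha
  obtain ⟨p, hp⟩ := Polynomial.dvd_iff_isRoot.2 h2
  have h3 : Q = (X l - C (a l)) * Polynomial.aeval (X l : MvPolynomial σ K) p := by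
    rw [← hq', hp, map_mul]
    congr 1
    simp [MvPolynomial.algebraMap_eq]
  have h4 : ¬ IsUnit (X l - C (a l) : MvPolynomial σ K) := by
    intro hu
    have h5 := hu.map (eval a)
    simp at h5
  have h6 := (hQ.isUnit_or_isUnit h3).resolve_left h4
  obtain ⟨r, hr, hr'⟩ := isUnit_iff_eq_C_of_isReduced.1 h6
  exact ⟨r, hr.ne_zero, by rw [h3, hr', mul_comm]⟩

end single

end Pool.Agent.J4H67.GC
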