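import Pool.Agent.J4H27.GC.Defs

set_option autoImplicit false

/-! Weighted orders and degrees of polynomials: additivity, derivatives, factorization. -/

open MvPolynomial Height

namespace Pool.Agent.J4H67.GC

open Pool.Agent.J4H27.GC

section ord

variable {σ K : Type} [Field K]

theorem tr_mul (a : σ → K) (P Q : MvPolynomial σ K) : tr a (P * Q) = tr a P * tr a Q := by
  unfold tr; rw [map_mul]

theorem tr_add (a : σ → K) (P Q : MvPolynomial σ K) : tr a (P + Q) = tr a P + tr a Q := by
  unfold tr; rw [map_add]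

theorem tr_C (a : σ → K) (c : K) : tr a (C c) = C c := by
  unfold tr; rw [aeval_C]; rfl

theorem tr_X (a : σ → K) (i : σ) : tr a (X i) = X i + C (a i) := by
  unfold tr; rw [aeval_X]

theorem tr_neg_tr (a : σ → K) (P : MvPolynomial σ K) : tr (fun i => -a i) (tr a P) = P := by
  induction P using MvPolynomial.induction_on with
  | C c => rw [tr_C, tr_C]
  | add p q hp hq => rw [tr_add, tr_add, hp, hq]
  | mul_X p i hp =>
    rw [tr_mul, tr_mul, hp, tr_X, tr_add, tr_X, tr_C]
    simp

theorem tr_ne_zero (a : σ → K) {P : MvPolynomial σ K} (h : P ≠ 0) : tr a P ≠ 0 := by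
  intro h0
  apply h
  rw [← tr_neg_tr a P, h0]
  unfold tr; rw [map_zero]

theorem coeff_zero_tr (a : σ → K) (P : MvPolynomial σ K) : (tr a P).coeff 0 = eval a P := by
  rw [← constantCoeff_eq]
  induction P using MvPolynomial.induction_on with
  | C c => rw [tr_C]; simp
  | add p q hp hq => rw [tr_add, map_add, map_add, hp, hq]
  | mul_X p i hp => rw [tr_mul, map_mul, map_mul, hp, tr_X]; simp

theorem tr_pderiv (a : σ → K) (k : σ) (P : MvPolynomial σ K) : tr a (pderiv k P) = pderiv k (tr a P) := by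
  classical
  induction P using MvPolynomial.induction_on with
  | C c => rw [tr_C, pderiv_C]; unfold tr; rw [map_zero]
  | add p q hp hq => rw [map_add, tr_add, tr_add, map_add, hp, hq]
  | mul_X p i hp =>
    rw [pderiv_mul, tr_add, tr_mul, tr_mul, tr_mul, pderiv_mul, hp, tr_X]
    congr 2
    by_cases h : i = k
    · subst h
      rw [pderiv_X_self, map_add, pderiv_X_self, pderiv_C, add_zero]
      exact (tr_C a 1)
    · rw [pderiv_X_of_ne h, map_add, pderiv_X_of_ne h, pderiv_C, add_zero]
      unfold tr; rw [map_zero]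

/-- the weighted order at `a` -/
noncomputable def wo (w : σ → ℕ) (a : σ → K) (P : MvPolynomial σ K) : ℕ∞ :=
  MvPowerSeries.weightedOrder w ((tr a P : MvPolynomial σ K) : MvPowerSeries σ K)

theorem wo_mul (w : σ → ℕ) (a : σ → K) (P Q : MvPolynomial σ K) : wo w a (P * Q) = wo w a P + wo w a Q := by
  unfold wo
  rw [tr_mul, coe_mul, MvPowerSeries.weightedOrder_mul]

theorem wo_ne_top (w : σ → ℕ) (a : σ → K) {P : MvPolynomial σ K} (h : P ≠ 0) : wo w a P ≠ ⊤ := by
  unfold wo
  rw [Ne, MvPowerSeries.weightedOrder_eq_top_iff]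
  intro h0
  exact tr_ne_zero a h (coe_injective _ _ (by rw [h0, coe_zero]))

/-- the weighted order as a natural number -/
noncomputable def on (w : σ → ℕ) (a : σ → K) (P : MvPolynomial σ K) : ℕ := (wo w a P).toNat

theorem on_coe (w : σ → ℕ) (a : σ → K) {P : MvPolynomial σ K} (h : P ≠ 0) : (on w a P : ℕ∞) = wo w a P :=
  ENat.coe_toNat (wo_ne_top w a h)

theorem on_mul (w : σ → ℕ) (a : σ → K) {P Q : MvPolynomial σ K} (hP : P ≠ 0) (hQ : Q ≠ 0) :
    on w a (P * Q) = on w a P + on w a Q := by
  have h : (on w a (P * Q) : ℕ∞) = (on w a P + on w a Q : ℕ) := by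
    rw [on_coe w a (mul_ne_zero hP hQ), Nat.cast_add, on_coe w a hP, on_coe w a hQ, wo_mul]
  exact_mod_cast h

variable [Fintype σ]

theorem weight_eq (w : σ → ℕ) (s : σ →₀ ℕ) : Finsupp.weight w s = ∑ i, w i * s i := by
  rw [Finsupp.weight_apply, Finsupp.sum_fintype _ _ (by intro i; simp)]
  apply Finset.sum_congr rfl
  intro i _
  rw [smul_eq_mul, mul_comm]

theorem Ow_iff (w : σ → ℕ) (a : σ → K) {P : MvPolynomial σ K} (h : P ≠ 0) (t : ℕ) : Ow w a P t ↔ t ≤ on w a P := by
  have h1 : (t ≤ on w a P) ↔ (t : ℕ∞) ≤ wo w a P := by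
    rw [← on_coe w a h]; exact Nat.cast_le.symm
  rw [h1]
  unfold Ow wo
  constructor
  · intro H
    apply MvPowerSeries.nat_le_weightedOrder
    intro d hd
    rw [coeff_coe]
    by_contra hc
    have := H d (mem_support_iff.2 hc)
    rw [weight_eq] at hd
    omega
  · intro H s hs
    have h2 := MvPowerSeries.weightedOrder_le w (f := ((tr a P : MvPolynomial σ K) : MvPowerSeries σ K)) (d := s)
      (by rw [coeff_coe]; exact mem_support_iff.1 hs)
    have h3 := H.trans h2
    rw [weight_eq] at h3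
    exact_mod_cast h3

theorem on_spec (w : σ → ℕ) (a : σ → K) {P : MvPolynomial σ K} (h : P ≠ 0) : Ow w a P (on w a P) :=
  (Ow_iff w a h _).2 le_rfl

theorem on_C (w : σ → ℕ) (a : σ → K) {c : K} (h : c ≠ 0) : on w a (C c) = 0 := by
  have h1 := on_spec w a (P := C c) (by simpa using h) 0 (by rw [tr_C]; simp [h])
  simpa using h1

theorem on_X_sub (w : σ → ℕ) (a : σ → K) (l : σ) : on w a (X l - C (a l)) ≤ w l := by
  classical
  have htr : tr a (X l - C (a l)) = X l := by
    rw [sub_eq_add_neg, ← map_neg, tr_add, tr_X, tr_C]; simp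
  have hne : (X l - C (a l) : MvPolynomial σ K) ≠ 0 := by
    intro h
    rw [h] at htr
    have h0 : tr a (0 : MvPolynomial σ K) = 0 := by unfold tr; rw [map_zero]
    rw [h0] at htr
    exact X_ne_zero l htr.symm
  have h1 := on_spec w a hne (Finsupp.single l 1) (by rw [htr]; simp [coeff_X])
  refine h1.trans ?_
  rw [Finset.sum_eq_single l]
  · simp
  · intro i _ hi
    rw [Finsupp.single_eq_of_ne hi, mul_zero]
  · intro hn; exact absurd (Finset.mem_univ l) hn

theorem eval_eq_zero_of_on {w : σ → ℕ} {a : σ → K} {P : MvPolynomial σ K} (h : 0 < on w a P) : eval a P = 0 := by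
  by_cases hP : P = 0
  · rw [hP, map_zero]
  · by_contra hc
    have h1 := on_spec w a hP 0 (mem_support_iff.2 (by rw [coeff_zero_tr]; exact hc))
    simp at h1
    omega

theorem Ow_pderiv {w : σ → ℕ} {a : σ → K} {P : MvPolynomial σ K} {t : ℕ} (h : Ow w a P t) (k : σ) :
    Ow w a (pderiv k P) (t - w k) := by
  classical
  intro s hs
  rw [tr_pderiv, mem_support_iff, coeff_pderiv] at hs
  have h1 : s + Finsupp.single k 1 ∈ (tr a P).support := mem_support_iff.2 (left_ne_zero_of_mul hs)
  have h2 := h _ h1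
  have h3 : ∑ i, w i * (s + Finsupp.single k 1 : σ →₀ ℕ) i = (∑ i, w i * s i) + w k := by
    simp only [Finsupp.add_apply, mul_add, Finset.sum_add_distrib]
    congr 1
    rw [Finset.sum_eq_single k]
    · simp
    · intro i _ hi
      rw [Finsupp.single_eq_of_ne hi, mul_zero]
    · intro hn; exact absurd (Finset.mem_univ k) hn
  omega

/-! degrees -/

theorem Nd_mul (w : σ → ℕ) {P Q : MvPolynomial σ K} (hP : P ≠ 0) (hQ : Q ≠ 0) :
    Nd w (P * Q) = Nd w P + Nd w Q := by
  unfold Nd
  rw [← Finset.sum_add_distrib]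
  apply Finset.sum_congr rfl
  intro i _
  rw [degreeOf_mul_eq hP hQ, mul_add]

theorem Nd_C (w : σ → ℕ) (c : K) : Nd w (C c : MvPolynomial σ K) = 0 := by
  unfold Nd
  simp [degreeOf_C]

theorem deg_le_Nd {w : σ → ℕ} (hw : ∀ i, 0 < w i) (P : MvPolynomial σ K) : ∑ i, P.degreeOf i ≤ Nd w P := by
  unfold Nd
  apply Finset.sum_le_sum
  intro i _
  exact Nat.le_mul_of_pos_left _ (hw i)

theorem deg_one_le_Nd (w : σ → ℕ) (P : MvPolynomial σ K) (l : σ) : w l * P.degreeOf l ≤ Nd w P := by
  unfold Nd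
  exact Finset.single_le_sum (f := fun i => w i * P.degreeOf i) (fun _ _ => Nat.zero_le _) (Finset.mem_univ l)

theorem deg_two_le_Nd (w : σ → ℕ) (P : MvPolynomial σ K) {l k : σ} (h : l ≠ k) :
    w l * P.degreeOf l + w k * P.degreeOf k ≤ Nd w P := by
  classical
  unfold Nd
  rw [← Finset.sum_pair (f := fun i => w i * P.degreeOf i) h]
  exact Finset.sum_le_sum_of_subset (Finset.subset_univ _)

end ord

section der

variable {σ K : Type} [Field K]

theorem degreeOf_pderiv_le (P : MvPolynomial σ K) (k i : σ) : (pderiv k P).degreeOf i ≤ P.degreeOf i := by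
  classical
  rw [degreeOf_eq_sup]
  apply Finset.sup_le
  intro s hs
  rw [mem_support_iff, coeff_pderiv] at hs
  have h1 : s + Finsupp.single k 1 ∈ P.support := mem_support_iff.2 (left_ne_zero_of_mul hs)
  have h2 := monomial_le_degreeOf i h1
  rw [Finsupp.add_apply] at h2
  omega

theorem degreeOf_pderiv_lt (P : MvPolynomial σ K) (k : σ) (hk : 0 < P.degreeOf k) :
    (pderiv k P).degreeOf k < P.degreeOf k := by
  classical
  rw [degreeOf_eq_sup, Finset.sup_lt_iff (by simpa using hk)]
  intro s hs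
  rw [mem_support_iff, coeff_pderiv] at hs
  have h1 : s + Finsupp.single k 1 ∈ P.support := mem_support_iff.2 (left_ne_zero_of_mul hs)
  have h2 := monomial_le_degreeOf k h1
  rw [Finsupp.add_apply, Finsupp.single_eq_same] at h2
  omega

theorem pderiv_ne_zero [CharZero K] {P : MvPolynomial σ K} {k : σ} (hk : 0 < P.degreeOf k) : pderiv k P ≠ 0 := by
  classical
  have h1 : ∃ s ∈ P.support, 0 < s k := by
    by_contra hcon
    push Not at hcon
    rw [degreeOf_eq_sup] at hk
    have : P.support.sup (fun m => m k) ≤ 0 := Finset.sup_le (fun s hs => hcon s hs)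
    omega
  obtain ⟨s, hs, hsk⟩ := h1
  intro h0
  have h2 := coeff_pderiv (i := k) P (s - Finsupp.single k 1)
  rw [h0, coeff_zero] at h2
  have h3 : s - Finsupp.single k 1 + Finsupp.single k 1 = s := by
    ext i
    by_cases hi : i = k
    · subst hi
      simp
      omega
    · simp [Finsupp.single_eq_of_ne hi]
  rw [h3] at h2
  have h4 : ((s - Finsupp.single k 1 : σ →₀ ℕ) k : K) + 1 ≠ 0 := by
    exact Nat.cast_add_one_ne_zero _
  exact mul_ne_zero (mem_support_iff.1 hs) h4 h2.symm

theorem not_dvd_pderiv [CharZero K] {P : MvPolynomial σ K} {k : σ} (hk : 0 < P.degreeOf k) : ¬ P ∣ pderiv k P := by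
  rintro ⟨M, hM⟩
  have h1 := pderiv_ne_zero hk
  have hP : P ≠ 0 := by
    intro h; rw [h, degreeOf_zero] at hk; omega
  have hM0 : M ≠ 0 := by
    intro h; rw [h, mul_zero] at hM; exact h1 hM
  have h2 := degreeOf_pderiv_lt P k hk
  rw [hM, degreeOf_mul_eq hP hM0] at h2
  omega

end der

end Pool.Agent.J4H67.GC
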